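import Mathlib

set_option autoImplicit false

open Polynomial

namespace Pool.Agent.ClaimF

/-- a copy of a field -/
def Cp (Ω : Type*) : Type _ := Ω

noncomputable instance {Ω : Type*} [Field Ω] : Field (Cp Ω) := inferInstanceAs (Field Ω)

instance {Ω : Type*} [Field Ω] [IsAlgClosed Ω] : IsAlgClosed (Cp Ω) :=
  inferInstanceAs (IsAlgClosed Ω)

/-- homomorphisms between algebraically closed fields moving one transcendental element -/
lemma step1 {M Ω : Type*} [Field M] [Field Ω] [IsAlgClosed Ω] [Algebra M Ω] (x y : Ω)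
    (hx : Transcendental M x) (hy : Transcendental M y)
    (halg : ∀ z : Ω, IsAlgebraic (Algebra.adjoin M {x}) z) :
    ∃ σ : Ω →+* Ω, (∀ m : M, σ (algebraMap M Ω m) = algebraMap M Ω m) ∧ σ x = y := by
  let A1 : Algebra M[X] Ω := (Polynomial.aeval (R := M) x).toRingHom.toAlgebra
  let A2 : Algebra M[X] (Cp Ω) := RingHom.toAlgebra (S := Cp Ω)
    ((Polynomial.aeval (R := M) (A := Ω) y).toRingHom)
  have e1 : ∀ P : M[X], algebraMap M[X] Ω P = Polynomial.aeval (R := M) x P := fun P => rfl
  have e2 : ∀ P : M[X], algebraMap M[X] (Cp Ω) P = Polynomial.aeval (R := M) (A := Ω) y P :=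
    fun P => rfl
  have hinj1 : Function.Injective (algebraMap M[X] Ω) := transcendental_iff_injective.mp hx
  have hinj2 : Function.Injective (algebraMap M[X] (Cp Ω)) :=
    (transcendental_iff_injective (A := Ω)).mp hy
  have i1 : Module.IsTorsionFree M[X] Ω := Module.isTorsionFree_iff_algebraMap_injective.mpr hinj1
  have i2 : Module.IsTorsionFree M[X] (Cp Ω) :=
    Module.isTorsionFree_iff_algebraMap_injective.mpr hinj2
  have i3 : Algebra.IsAlgebraic M[X] Ω := by
    refine ⟨fun z => ?_⟩
    obtain ⟨P, hP, hz⟩ := halg z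
    let e := Polynomial.algEquivOfTranscendental M x hx
    refine ⟨P.map (e.symm : Algebra.adjoin M {x} →+* M[X]), ?_, ?_⟩
    · rwa [Ne, Polynomial.map_eq_zero_iff]
      exact e.symm.injective
    · rw [Polynomial.aeval_def, Polynomial.eval₂_map]
      have h3 : (algebraMap M[X] Ω).comp (e.symm : Algebra.adjoin M {x} →+* M[X]) =
          algebraMap (Algebra.adjoin M {x}) Ω := by
        ext c
        obtain ⟨Q, rfl⟩ := e.surjective c
        simp [e1, e, Polynomial.algEquivOfTranscendental]
      rw [h3, ← Polynomial.aeval_def]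
      exact hz
  let σ : Ω →ₐ[M[X]] (Cp Ω) := IsAlgClosed.lift
  refine ⟨σ.toRingHom, ?_, ?_⟩
  · intro m
    have := σ.commutes (C m)
    rw [e1, e2, Polynomial.aeval_C, Polynomial.aeval_C] at this
    exact this
  · have := σ.commutes X
    rw [e1, e2, Polynomial.aeval_X, Polynomial.aeval_X] at this
    exact this

/-- `y` is algebraic over `k(x)` -/
def AO (k : Type*) {Ω : Type*} [Field k] [Field Ω] [Algebra k Ω] (x y : Ω) : Prop :=
  IsAlgebraic (IntermediateField.adjoin k {x}) y

section

variable {k Ω : Type*} [Field k] [Field Ω] [Algebra k Ω]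

/-- the algebraic closure of `k(x)` in `Ω` -/
noncomputable def cl (k : Type*) {Ω : Type*} [Field k] [Field Ω] [Algebra k Ω] (x : Ω) :
    IntermediateField k Ω :=
  (algebraicClosure (IntermediateField.adjoin k {x}) Ω).restrictScalars k

lemma mem_cl (x y : Ω) : y ∈ cl k x ↔ AO k x y := by
  rw [cl, IntermediateField.mem_restrictScalars, mem_algebraicClosure_iff, AO]

lemma self_mem_cl (x : Ω) : x ∈ cl k x := by
  rw [mem_cl]
  exact isAlgebraic_algebraMap
    (⟨x, IntermediateField.mem_adjoin_simple_self k x⟩ : IntermediateField.adjoin k {x})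

lemma alg_mem {F : IntermediateField k Ω} {E : IntermediateField k Ω} (h : F ≤ E) {z : Ω}
    (hz : IsAlgebraic F z) : IsAlgebraic E z := by
  let _ : Algebra F E := (IntermediateField.inclusion h).toRingHom.toAlgebra
  have : IsScalarTower F E Ω := IsScalarTower.of_algebraMap_eq (fun _ => rfl)
  exact hz.tower_top E

lemma cl_closed (x : Ω) {z : Ω} (hz : IsAlgebraic (cl k x) z) : z ∈ cl k x := by
  rw [mem_cl, AO]
  have h : IsAlgebraic (algebraicClosure (IntermediateField.adjoin k {x}) Ω) z := hz
  have : Algebra.IsAlgebraic (IntermediateField.adjoin k {x})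
    (algebraicClosure (IntermediateField.adjoin k {x}) Ω) := algebraicClosure.isAlgebraic _ _
  exact IsAlgebraic.restrictScalars _ h

lemma alg_of_le (x : Ω) {E : IntermediateField k Ω} (hx : x ∈ E) {z : Ω} (hz : AO k x z) :
    IsAlgebraic E z :=
  alg_mem (by rwa [IntermediateField.adjoin_simple_le_iff]) hz

lemma ao_trans {x y z : Ω} (h1 : AO k x y) (h2 : AO k y z) : AO k x z := by
  rw [← mem_cl]
  apply cl_closed
  exact alg_of_le y ((mem_cl x y).mpr h1) h2

lemma ao_of_alg {x y : Ω} (h : IsAlgebraic k y) : AO k x y := h.tower_top _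

lemma exch {x y : Ω} (hx : Transcendental k x) (hy : Transcendental k y) (h : AO k x y) :
    AO k y x := by
  rw [AO, IntermediateField.isAlgebraic_adjoin_iff] at h ⊢
  exact IsAlgebraic.adjoin_singleton (A := Ω) (B := Ω) hx hy h

lemma trans_of {x y : Ω} (h : ¬ AO k x y) : Transcendental k y := by
  intro h2
  exact h (ao_of_alg h2)

/-- `k(x)` and `k(x')` have algebraic intersection -/
lemma inter {x x' g : Ω} (hx : Transcendental k x) (h : ¬ AO k x' x) (h1 : AO k x g)
    (h2 : AO k x' g) : IsAlgebraic k g := by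
  by_contra hg
  exact h (ao_trans h2 (exch hx hg h1))

lemma ao_map (σ : Ω →ₐ[k] Ω) {x z : Ω} (h : AO k x z) : AO k (σ x) (σ z) := by
  have hle : IntermediateField.adjoin k {x} ≤ (IntermediateField.adjoin k {σ x}).comap σ := by
    rw [IntermediateField.adjoin_simple_le_iff]
    show σ x ∈ IntermediateField.adjoin k {σ x}
    exact IntermediateField.mem_adjoin_simple_self k _
  let g : IntermediateField.adjoin k {x} →+* IntermediateField.adjoin k {σ x} :=
    { toFun := fun a => ⟨σ a, hle a.2⟩
      map_one' := by ext; simp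
      map_mul' := fun a b => by ext; simp
      map_zero' := by ext; simp
      map_add' := fun a b => by ext; simp }
  refine IsAlgebraic.ringHom_of_comp_eq g (σ : Ω →+* Ω) h g.injective ?_
  rfl

end

section

variable {k Ω : Type*} [Field k] [Field Ω] [Algebra k Ω] [IsAlgClosed Ω]

lemma core (p : ℕ) [Fact p.Prime] [CharP Ω p] (x x' f f' f'' : Ω) (hx' : Transcendental k x')
    (hxx : ¬ AO k x' x) (hf : AO k x f) (hf' : AO k x' f') (hf'' : AO k (x / x') f'')
    (h0 : IsAlgebraic k (f - f' - f''))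
    (hΩ : ∀ z : Ω, IsAlgebraic (IntermediateField.adjoin k {x, x'}) z) : IsAlgebraic k f := by
  classical
  by_contra hft
  have hxt : Transcendental k x := trans_of hxx
  have hx0 : x ≠ 0 := by
    rintro rfl
    exact hxt isAlgebraic_zero
  have hx'0 : x' ≠ 0 := by
    rintro rfl
    exact hx' isAlgebraic_zero
  set w := x / x' with hw
  have hxw : x = w * x' := by rw [hw]; field_simp
  have hw0 : w ≠ 0 := div_ne_zero hx0 hx'0
  have hx'w : x' = x / w := by rw [hxw]; field_simp
  have hwt : Transcendental k w := by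
    intro h
    apply hxx
    rw [← mem_cl, hxw]
    exact mul_mem ((mem_cl _ _).mpr (ao_of_alg h)) (self_mem_cl _)
  -- the field `M`
  have hMx : ¬ IsAlgebraic (cl k w) x := by
    intro h
    have h1 : x ∈ cl k w := cl_closed w h
    have h2 : x' ∈ cl k w := by
      rw [hx'w]
      exact div_mem h1 (self_mem_cl w)
    have h3 : AO k x' w := exch hwt hx' ((mem_cl _ _).mp h2)
    apply hxx
    rw [← mem_cl, hxw]
    exact mul_mem ((mem_cl _ _).mpr h3) (self_mem_cl _)
  have hMk : ∀ z : Ω, IsAlgebraic k z → z ∈ cl k w := fun z hz => (mem_cl _ _).mpr (ao_of_alg hz)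
  have halg : ∀ z : Ω, IsAlgebraic (Algebra.adjoin (cl k w) {x}) z := by
    intro z
    rw [← IntermediateField.isAlgebraic_adjoin_iff]
    have h1 : IntermediateField.adjoin k {x, x'} ≤
        (IntermediateField.adjoin (cl k w) {x}).restrictScalars k := by
      rw [IntermediateField.adjoin_le_iff]
      have hxm : x ∈ (IntermediateField.adjoin (cl k w) {x}) :=
        IntermediateField.mem_adjoin_simple_self _ _
      have hwm : w ∈ (IntermediateField.adjoin (cl k w) {x}) :=
        (IntermediateField.adjoin (cl k w) {x}).algebraMap_mem ⟨w, self_mem_cl w⟩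
      rintro z (rfl | hz)
      · exact hxm
      · rw [Set.mem_singleton_iff] at hz
        rw [hz, hx'w]
        exact div_mem hxm hwm
    exact alg_mem h1 (hΩ z)
  -- a polynomial for `x` over `k(f)`
  have hfx : AO k f x := exch hxt hft hf
  rw [AO, IntermediateField.isAlgebraic_adjoin_iff] at hfx
  obtain ⟨P, hP0, hPx⟩ := hfx
  set d := P.natDegree with hd
  have hp : p.Prime := Fact.out
  set N := p * d + 1 with hN
  have hNΩ : (N : Ω) ≠ 0 := by
    rw [hN]
    push_cast
    rw [CharP.cast_eq_zero Ω p]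
    simp
  obtain ⟨ζ, hζ⟩ : ∃ ζ : Ω, IsPrimitiveRoot ζ N := by
    have : NeZero (N : Ω) := ⟨hNΩ⟩
    exact HasEnoughRootsOfUnity.exists_primitiveRoot Ω N
  have hN0 : 0 < N := by omega
  have hζ0 : ζ ≠ 0 := hζ.ne_zero hN0.ne'
  have hζM : ζ ∈ cl k w := by
    apply hMk
    refine ⟨Polynomial.X ^ N - 1, ?_, ?_⟩
    · exact (Polynomial.monic_X_pow_sub_C (1 : k) hN0.ne').ne_zero
    · simp [hζ.pow_eq_one]
  have hyt : Transcendental (cl k w) (ζ * x) := by
    intro h
    apply hMx
    have h1 : IsAlgebraic (cl k w) (ζ⁻¹) := by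
      have := isAlgebraic_algebraMap (R := cl k w) (A := Ω) (⟨ζ⁻¹, inv_mem hζM⟩ : cl k w)
      exact this
    have h2 := h1.mul h
    rwa [← mul_assoc, inv_mul_cancel₀ hζ0, one_mul] at h2
  obtain ⟨σ, hσM, hσx⟩ := step1 x (ζ * x) hMx hyt halg
  have hσm : ∀ z ∈ cl k w, σ z = z := fun z hz => hσM ⟨z, hz⟩
  have hσk : ∀ c : k, σ (algebraMap k Ω c) = algebraMap k Ω c := fun c =>
    hσm _ ((cl k w).algebraMap_mem c)
  let σk : Ω →ₐ[k] Ω := { σ with commutes' := hσk }
  have hσζ : σ ζ = ζ := hσm ζ hζM
  have hσw : σ w = w := hσm w (self_mem_cl w)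
  have hσx' : σ x' = ζ * x' := by
    rw [hx'w, map_div₀, hσx, hσw, mul_div_assoc]
  have hζx : ∀ u : Ω, ζ * u ∈ cl k u := fun u =>
    mul_mem ((mem_cl _ _).mpr (ao_of_alg (by
      refine ⟨Polynomial.X ^ N - 1, ?_, ?_⟩
      · exact (Polynomial.monic_X_pow_sub_C (1 : k) hN0.ne').ne_zero
      · simp [hζ.pow_eq_one]))) (self_mem_cl u)
  set c := σ f - f with hc
  have hc1 : AO k x c := by
    have h1 : AO k (ζ * x) (σ f) := by
      have := ao_map σk hf
      rwa [show σk x = ζ * x from hσx] at this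
    have h2 : σ f ∈ cl k x := (mem_cl _ _).mpr (ao_trans ((mem_cl _ _).mp (hζx x)) h1)
    exact (mem_cl _ _).mp (sub_mem h2 ((mem_cl _ _).mpr hf))
  have hc2 : AO k x' c := by
    have h1 : AO k (ζ * x') (σ f') := by
      have := ao_map σk hf'
      rwa [show σk x' = ζ * x' from hσx'] at this
    have h2 : σ f' ∈ cl k x' := (mem_cl _ _).mpr (ao_trans ((mem_cl _ _).mp (hζx x')) h1)
    have h3 : c = σ f' - f' := by
      have e1 : σ f'' = f'' := hσm _ ((mem_cl _ _).mpr hf'')
      have e2 : σ (f - f' - f'') = f - f' - f'' := hσm _ (hMk _ h0)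
      rw [map_sub, map_sub, e1] at e2
      rw [hc]
      linear_combination e2
    rw [h3]
    exact (mem_cl _ _).mp (sub_mem h2 ((mem_cl _ _).mpr hf'))
  have hcalg : IsAlgebraic k c := inter hxt hxx hc1 hc2
  have hσc : σ c = c := hσm _ (hMk _ hcalg)
  have hit : ∀ n : ℕ, (σ ^ n) f = f + n * c ∧ (σ ^ n) x = ζ ^ n * x := by
    intro n
    induction n with
    | zero => simp
    | succ n ih =>
      rw [pow_succ', RingHom.mul_def, RingHom.comp_apply, RingHom.comp_apply, ih.1, ih.2]
      constructor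
      · rw [map_add, map_mul, hσc, map_natCast, show σ f = f + c by rw [hc]; ring]
        push_cast
        ring
      · rw [map_mul, map_pow, hσζ, hσx]
        ring
  have hfix : ∀ i : ℕ, (σ ^ (p * i)) f = f := by
    intro i
    rw [(hit _).1]
    push_cast
    rw [CharP.cast_eq_zero Ω p]
    simp
  have hfixk : ∀ (n : ℕ) (a : k), (σ ^ n) (algebraMap k Ω a) = algebraMap k Ω a := by
    intro n a
    induction n with
    | zero => simp
    | succ n ih => rw [pow_succ', RingHom.mul_def, RingHom.comp_apply, ih, hσk]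
  have hfixA : ∀ (i : ℕ) (a : Algebra.adjoin k {f}), (σ ^ (p * i)) (a : Ω) = a := by
    intro i a
    obtain ⟨a, ha⟩ := a
    show (σ ^ (p * i)) a = a
    induction ha using Algebra.adjoin_induction with
    | mem z hz =>
      rw [Set.mem_singleton_iff] at hz
      rw [hz]
      exact hfix i
    | algebraMap r => exact hfixk _ r
    | add a b _ _ iha ihb => rw [map_add, iha, ihb]
    | mul a b _ _ iha ihb => rw [map_mul, iha, ihb]
  set Q := P.map (algebraMap (Algebra.adjoin k {f}) Ω) with hQ
  have hinj : Function.Injective (algebraMap (Algebra.adjoin k {f}) Ω) := Subtype.coe_injective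
  have hQ0 : Q ≠ 0 := by
    rw [hQ, Ne, Polynomial.map_eq_zero_iff hinj]
    exact hP0
  have hroot : ∀ i : ℕ, Q.eval (ζ ^ (p * i) * x) = 0 := by
    intro i
    rw [← (hit (p * i)).2, hQ, Polynomial.eval_map]
    have h1 : Polynomial.eval₂ (algebraMap (Algebra.adjoin k {f}) Ω) x P = 0 := hPx
    have h2 := congrArg (σ ^ (p * i)) h1
    rw [map_zero, Polynomial.hom_eval₂] at h2
    have h3 : (σ ^ (p * i)).comp (algebraMap (Algebra.adjoin k {f}) Ω) =
        algebraMap (Algebra.adjoin k {f}) Ω := by
      ext a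
      exact hfixA i a
    rwa [h3] at h2
  have hζp : IsPrimitiveRoot (ζ ^ p) N := by
    apply hζ.pow_of_coprime
    rw [hN]
    exact (Nat.coprime_mul_left_add_right p 1 d).mpr (Nat.coprime_one_right p)
  have hcard : N ≤ Q.natDegree := by
    have h1 : (Finset.image (fun i : ℕ => ζ ^ (p * i) * x) (Finset.range N)).card = N := by
      rw [Finset.card_image_of_injOn, Finset.card_range]
      intro i hi j hj hij
      have h2 : ζ ^ (p * i) = ζ ^ (p * j) := mul_right_cancel₀ hx0 hij
      rw [pow_mul, pow_mul] at h2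
      exact hζp.pow_inj (by simpa using hi) (by simpa using hj) h2
    have h2 : Finset.image (fun i : ℕ => ζ ^ (p * i) * x) (Finset.range N) ⊆ Q.roots.toFinset := by
      intro z hz
      rw [Finset.mem_image] at hz
      obtain ⟨i, -, rfl⟩ := hz
      rw [Multiset.mem_toFinset, Polynomial.mem_roots hQ0]
      exact hroot i
    calc N = _ := h1.symm
      _ ≤ Q.roots.toFinset.card := Finset.card_le_card h2
      _ ≤ Multiset.card Q.roots := Multiset.toFinset_card_le _
      _ ≤ Q.natDegree := Polynomial.card_roots' Q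
  have hdeg : Q.natDegree ≤ d := by
    rw [hQ, hd]
    exact Polynomial.natDegree_map_le
  have : d ≤ p * d := Nat.le_mul_of_pos_left d hp.pos
  omega

end

section

variable {k L : Type*} [Field k] [Field L] [Algebra k L]

lemma aoS_hom {L' : Type*} [Field L'] [Algebra k L'] (σ : L →ₐ[k] L') (S : Set L) (z : L) :
    IsAlgebraic (IntermediateField.adjoin k (σ '' S)) (σ z) ↔
      IsAlgebraic (IntermediateField.adjoin k S) z := by
  have hmap : IntermediateField.adjoin k (σ '' S) = (IntermediateField.adjoin k S).map σ := by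
    rw [IntermediateField.adjoin_map]
  let g : IntermediateField.adjoin k S →+* IntermediateField.adjoin k (σ '' S) :=
    { toFun := fun a => ⟨σ a, by
        rw [hmap]
        exact ⟨a, a.2, rfl⟩⟩
      map_one' := by ext; simp
      map_mul' := fun a b => by ext; simp
      map_zero' := by ext; simp
      map_add' := fun a b => by ext; simp }
  have hsurj : Function.Surjective g := by
    rintro ⟨b, hb⟩
    have hb' := hb
    rw [hmap] at hb'
    obtain ⟨a, ha, hab⟩ := hb'
    exact ⟨⟨a, ha⟩, by ext; exact hab⟩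
  constructor
  · intro h
    exact IsAlgebraic.of_ringHom_of_comp_eq g (σ : L →+* L') h hsurj σ.injective rfl
  · intro h
    exact IsAlgebraic.ringHom_of_comp_eq g (σ : L →+* L') h g.injective rfl

lemma ao_hom {L' : Type*} [Field L'] [Algebra k L'] (σ : L →ₐ[k] L') (x z : L) :
    AO k (σ x) (σ z) ↔ AO k x z := by
  have := aoS_hom σ {x} z
  rwa [Set.image_singleton] at this

/-- the claim for fields algebraic over `k(x, x')` -/
lemma stepA (p : ℕ) [Fact p.Prime] [CharP L p] (x x' f f' f'' : L) (hx' : Transcendental k x')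
    (hxx : ¬ AO k x' x) (hf : AO k x f) (hf' : AO k x' f') (hf'' : AO k (x / x') f'')
    (h0 : IsAlgebraic k (f - f' - f''))
    (hL : ∀ z : L, IsAlgebraic (IntermediateField.adjoin k {x, x'}) z) : IsAlgebraic k f := by
  let ι : L →ₐ[k] AlgebraicClosure L := IsScalarTower.toAlgHom k L (AlgebraicClosure L)
  have halgι : ∀ z : L, IsAlgebraic k (ι z) ↔ IsAlgebraic k z := fun z =>
    isAlgebraic_algHom_iff ι ι.injective
  rw [← halgι]
  have hchar : CharP (AlgebraicClosure L) p := inferInstance
  refine core p (ι x) (ι x') (ι f) (ι f') (ι f'') (fun h => hx' ((halgι _).mp h))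
    (fun h => hxx ((ao_hom ι x' x).mp h)) ((ao_hom ι x f).mpr hf) ((ao_hom ι x' f').mpr hf')
    ?_ ?_ ?_
  · rw [← map_div₀]
    exact (ao_hom ι _ _).mpr hf''
  · rw [← map_sub, ← map_sub]
    exact (halgι _).mpr h0
  · intro z
    have h1 : IsAlgebraic L z := Algebra.IsAlgebraic.isAlgebraic z
    have h2 : Algebra.IsAlgebraic (IntermediateField.adjoin k {x, x'}) L := ⟨hL⟩
    have h3 : IsAlgebraic (IntermediateField.adjoin k {x, x'}) z :=
      IsAlgebraic.restrictScalars (IntermediateField.adjoin k {x, x'}) h1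
    have hmap : IntermediateField.adjoin k {ι x, ι x'} =
        (IntermediateField.adjoin k {x, x'}).map ι := by
      rw [IntermediateField.adjoin_map, Set.image_pair]
    let g : IntermediateField.adjoin k {x, x'} →+* IntermediateField.adjoin k {ι x, ι x'} :=
      { toFun := fun a => ⟨ι a, by
          rw [hmap]
          exact ⟨a, a.2, rfl⟩⟩
        map_one' := by ext; simp
        map_mul' := fun a b => by ext; simp
        map_zero' := by ext; simp
        map_add' := fun a b => by ext; simp }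
    exact IsAlgebraic.ringHom_of_comp_eq g (RingHom.id (AlgebraicClosure L)) h3 g.injective rfl

lemma stepC {E : Type*} [Field E] [Algebra k E] (σ : E →ₐ[k] L) (p : ℕ) [Fact p.Prime]
    [CharP L p] (x x' f f' f'' : E) (hx' : Transcendental k (σ x'))
    (hxx : ¬ AO k (σ x') (σ x)) (hf : AO k (σ x) (σ f)) (hf' : AO k (σ x') (σ f'))
    (hf'' : AO k (σ x / σ x') (σ f'')) (h0 : IsAlgebraic k (σ f - σ f' - σ f''))
    (hE : ∀ z : E, IsAlgebraic (IntermediateField.adjoin k {σ x, σ x'}) (σ z)) :
    IsAlgebraic k (σ f) := by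
  have hchar : CharP E p := (σ : E →+* L).charP σ.injective p
  have halgv : ∀ z : E, IsAlgebraic k (σ z) ↔ IsAlgebraic k z := fun z =>
    isAlgebraic_algHom_iff σ σ.injective
  refine (halgv f).mpr ?_
  refine stepA p x x' f f' f'' ?_ ?_ ?_ ?_ ?_ ?_ ?_
  · exact fun h => hx' ((halgv _).mpr h)
  · exact fun h => hxx ((ao_hom σ _ _).mpr h)
  · exact (ao_hom σ _ _).mp hf
  · exact (ao_hom σ _ _).mp hf'
  · refine (ao_hom σ _ _).mp ?_
    rw [map_div₀]
    exact hf''
  · refine (halgv _).mp ?_
    rw [map_sub, map_sub]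
    exact h0
  · intro z
    have h1 := hE z
    have h2 := aoS_hom σ {x, x'} z
    rw [Set.image_pair] at h2
    exact h2.mp h1

lemma stepB (p : ℕ) [Fact p.Prime] [CharP L p] (x x' f f' f'' : L) (hx' : Transcendental k x')
    (hxx : ¬ AO k x' x) (hf : AO k x f) (hf' : AO k x' f') (hf'' : AO k (x / x') f'')
    (h0 : IsAlgebraic k (f - f' - f'')) (E : IntermediateField k L)
    (hE : ∀ z ∈ E, IsAlgebraic (IntermediateField.adjoin k {x, x'}) z) (mx : x ∈ E)
    (mx' : x' ∈ E) (mf : f ∈ E) (mf' : f' ∈ E) (mf'' : f'' ∈ E) : IsAlgebraic k f :=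
  stepC E.val p (⟨x, mx⟩ : E) ⟨x', mx'⟩ ⟨f, mf⟩ ⟨f', mf'⟩ ⟨f'', mf''⟩ hx' hxx hf hf' hf'' h0
    (fun z => hE z z.2)

/-- CLAIM F: the functional equation `f(x) - f'(x') = f''(x/x') + c` with algebraic functions of
one variable in characteristic `p` has only constant solutions. -/
theorem claimF (p : ℕ) [Fact p.Prime] [CharP L p] (x x' f f' f'' : L) (hx' : Transcendental k x')
    (hxx : ¬ AO k x' x) (hf : AO k x f) (hf' : AO k x' f') (hf'' : AO k (x / x') f'')
    (h0 : IsAlgebraic k (f - f' - f'')) :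
    IsAlgebraic k f ∧ IsAlgebraic k f' ∧ IsAlgebraic k f'' := by
  have hmem : ∀ z : L, IsAlgebraic (IntermediateField.adjoin k {x, x'}) z →
      z ∈ (algebraicClosure (IntermediateField.adjoin k {x, x'}) L).restrictScalars k :=
    fun z hz => mem_algebraicClosure_iff.mpr hz
  have hxS : x ∈ IntermediateField.adjoin k {x, x'} := IntermediateField.subset_adjoin _ _ (by simp)
  have hx'S : x' ∈ IntermediateField.adjoin k {x, x'} :=
    IntermediateField.subset_adjoin _ _ (by simp)
  have hfk : IsAlgebraic k f := by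
    refine stepB p x x' f f' f'' hx' hxx hf hf' hf'' h0
      ((algebraicClosure (IntermediateField.adjoin k {x, x'}) L).restrictScalars k)
      (fun z hz => mem_algebraicClosure_iff.mp hz) ?_ ?_ ?_ ?_ ?_
    · exact hmem _ (isAlgebraic_algebraMap (⟨x, hxS⟩ : IntermediateField.adjoin k {x, x'}))
    · exact hmem _ (isAlgebraic_algebraMap (⟨x', hx'S⟩ : IntermediateField.adjoin k {x, x'}))
    · exact hmem _ (alg_of_le x hxS hf)
    · exact hmem _ (alg_of_le x' hx'S hf')
    · exact hmem _ (alg_of_le (x / x') (div_mem hxS hx'S) hf'')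
  have hxt : Transcendental k x := trans_of hxx
  have hx0 : x ≠ 0 := by
    rintro rfl
    exact hxt isAlgebraic_zero
  have hx'0 : x' ≠ 0 := by
    rintro rfl
    exact hx' isAlgebraic_zero
  have hind : ¬ AO k x' (x / x') := by
    intro h
    apply hxx
    rw [← mem_cl, show x = x / x' * x' by field_simp]
    exact mul_mem ((mem_cl _ _).mpr h) (self_mem_cl _)
  have hf'k : IsAlgebraic k f' := by
    refine inter (x := x / x') (x' := x') (trans_of hind) hind ?_ hf'
    have h1 : f' = f - (f - f' - f'') - f'' := by ring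
    rw [h1]
    exact (mem_cl _ _).mp (sub_mem (sub_mem ((mem_cl _ _).mpr (ao_of_alg hfk))
      ((mem_cl _ _).mpr (ao_of_alg h0))) ((mem_cl _ _).mpr hf''))
  refine ⟨hfk, hf'k, ?_⟩
  have h2 : f'' = f - f' - (f - f' - f'') := by ring
  rw [h2]
  exact (hfk.sub hf'k).sub h0

end

end Pool.Agent.ClaimF
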